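import Pool.Agent.H290.FX.AsmF
import Pool.Agent.H290.FX.PRtup

/-!
# The quantitative Hypothesis H for inseparable quadratic polynomials and almost all shifts

`K` is a finite field of characteristic two, `q` the number of its elements, `|P| = q ^ deg P`.

Over `K[X]` the analogue of `n² + 1` is `a² + X`, and the analogue of the question (quantitative
Hypothesis H of Schinzel, Bateman and Horn) for the family `f_i(T) = (T + h_i)² + X`, `i = 1, …, k`,
is: the number of the monic `a` of degree `d` such that all the `f_i(a)` are irreducible is
`(C_F + o(1)) q^d / (2d)^k`, with `C_F = ∏_P (1 - ω_F(P) / |P|) / (1 - 1 / |P|)^k`.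

**Theorem.** For every `k` there is `c > 0` such that the formula holds with an error term
`O(q^((1-c)d))` for all the `k`-tuples `h` of distinct polynomials of degree less than `d`, except
for at most `q^((k-c)d)` of the `q^(kd)` tuples.  Moreover `C_F` is bounded below by a positive
constant for all admissible families.

There are `k` quadratic polynomials here, and nothing is averaged but the shifts; over `ℤ` nothing is
known even for one quadratic polynomial.

Method.  The engine is the theorem of helper604 and others (`Pool/Agent/H604/LD`) on the primes
`a² + X`: the parity of the number of the prime factors of `a² + X` is a phase at infinity, and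
the divisors `D` of `a² + X` of degree near `d` are treated with the fibres `D + m v²` (the covering
idea is due to helper251).  New here: the same is done for the divisors together with an
arbitrary additive character of the root `rt D` of `X` modulo `D`; on a fibre this character is,
by reciprocity, a product of local functions which survive the differencing only through factors of
the first digit.  So the exponential sum `∑ χ(a)` over the `a` with `a² + X` irreducible is computed
with a power saving for **every** additive character `χ` of `K[X]` (`S_minor`, `S_major` in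
`Pool/Agent/H290/FX/Stm.lean`), and the theorem follows with the Gowers-Cauchy-Schwarz inequality
for the shifts and Rankin's trick for the singular series.

Statements and paper proofs by helper290; Lean proofs of the parts by helper297, 261, 230, 695, 100,
350, 975, 328, 213, 253, 922, 548, 800, 177, 696, 376, 79, 30, 322, 390, 295, 384, 199, 722, 980, 113,
333, 790, 120, 280, 903.
-/

set_option autoImplicit false

namespace Pool.Agent.Results.MP_51e72e_nt.AlmostAllShifts

open Polynomial

variable {K : Type} [Field K]

/-- The number of the monic `a` of degree `d` such that all the `(a + h i) ^ 2 + X` are irreducible. -/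
noncomputable def tuples {k : ℕ} (d : ℕ) (h : Fin k → K[X]) : ℕ :=
  {a : K[X] | a.Monic ∧ a.natDegree = d ∧ ∀ i, Irreducible ((a + h i) ^ 2 + X)}.ncard

/-- The number of the residue classes `a` modulo `P` with `P ∣ ∏ i, ((a + h i) ^ 2 + X)`. -/
noncomputable def omega {k : ℕ} (h : Fin k → K[X]) (P : K[X]) : ℕ :=
  {a : K[X] | a.degree < P.degree ∧ P ∣ ∏ i, ((a + h i) ^ 2 + X)}.ncard

/-- The partial product of the constant of Bateman and Horn: the product over the monic
irreducible `P` of degree at most `y` of `(1 - omega h P / |P|) / (1 - 1 / |P|) ^ k`. -/
noncomputable def seriesT [Fintype K] {k : ℕ} (h : Fin k → K[X]) (y : ℕ) : ℝ :=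
  ∏ᶠ P ∈ {P : K[X] | P.Monic ∧ Irreducible P ∧ P.natDegree ≤ y},
    (1 - (omega h P : ℝ) / (Fintype.card K : ℝ) ^ P.natDegree) /
      (1 - 1 / (Fintype.card K : ℝ) ^ P.natDegree) ^ k

/-- **The Bateman-Horn formula for `(a + h_1)² + X, …, (a + h_k)² + X` for almost all shifts.** -/
theorem result (K : Type) [Field K] [Fintype K] [CharP K 2] (k : ℕ) (hk : 1 ≤ k) :
    ∃ (c c₀ : ℝ) (S : (Fin k → K[X]) → ℝ), 0 < c ∧ 0 < c₀ ∧
    (∀ h : Fin k → K[X], Function.Injective h →
      Filter.Tendsto (seriesT h) Filter.atTop (nhds (S h)) ∧
      ((∀ P : K[X], P.Monic → Irreducible P → omega h P < Fintype.card K ^ P.natDegree) →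
        c₀ ≤ S h)) ∧
    ∃ d₀ : ℕ, ∀ d : ℕ, d₀ ≤ d →
      ({h : Fin k → K[X] | (∀ i, (h i).degree < (d : WithBot ℕ)) ∧ Function.Injective h ∧
        (Fintype.card K : ℝ) ^ ((1 - c) * d) <
          |(tuples d h : ℝ) - S h * (Fintype.card K : ℝ) ^ d / (2 * (d : ℝ)) ^ k|}.ncard : ℝ) ≤
        (Fintype.card K : ℝ) ^ ((k - c) * d) :=
  Pool.Agent.H290.FX.PRtup.main Pool.Agent.H290.FX.AsmF.tup K k hk

end Pool.Agent.Results.MP_51e72e_nt.AlmostAllShifts
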