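import Mathlib
import Pool.Agent.H544.LD.Fin

/-!
# The conjecture of Elliott and Halberstam for prime values of systems of polynomials, for almost all constant terms

Let `f_1, ..., f_k` be integer polynomials of positive degrees `d_i` with positive leading coefficients. For almost all
vectors `c` of constants `c_i ≤ A_i`, where `A_i` has the order of `x ^ d_i`, the `n ≤ x` at which all `f_i(n) + c_i` are
prime are equidistributed in the admissible residue classes, in the mean over the moduli up to
`x * exp (- D (log log x) ^ 2)`: for arbitrary sets `R q` of residue classes modulo `q` the sum over `q` of the mean over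
`r ∈ R q` of the largest error at a length `y ≤ x` is at most `x / (log x) ^ U`.

One class to each modulus gives the analogue of the conjecture of Elliott and Halberstam (with classes fixed in advance),
all classes give the theorem of Barban, Davenport and Halberstam in that range. The main term is `C y / ρ(q)`, where `C` is
the constant of Bateman and Horn of the system `f_i + c_i` (cut at a power of `log x`) and `ρ(q)` is the number of
admissible classes modulo `q`; the case `q = 1` contains the formula of Bateman and Horn itself.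
-/

set_option autoImplicit false

namespace Pool.Agent.Results.MP_51e72e_nt.ElliottHalberstam

open Finset Polynomial

/-- the value `f_i(n) + c_i` -/
def value {k : ℕ} (f : Fin k → ℤ[X]) (c : Fin k → ℕ) (i : Fin k) (n : ℕ) : ℤ := (f i).eval (n : ℤ) + c i

open Classical in
/-- the sum of `∏ log (f_i(n) + c_i)` over the `n ≤ y`, `n ≡ r mod q`, at which all `f_i(n) + c_i` are prime -/
noncomputable def theta {k : ℕ} (f : Fin k → ℤ[X]) (c : Fin k → ℕ) (y q r : ℕ) : ℝ :=
  ∑ n ∈ (Finset.Icc 1 y).filter (fun n : ℕ => n % q = r ∧ ∀ i, (value f c i n).toNat.Prime),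
    ∏ i, Real.log (value f c i n)

/-- the number of residues `n` modulo `p` at which `p` divides some `f_i(n) + c_i` -/
def omega {k : ℕ} (f : Fin k → ℤ[X]) (c : Fin k → ℕ) (p : ℕ) : ℕ :=
  ((Finset.range p).filter (fun n : ℕ => (p : ℤ) ∣ ∏ i, value f c i n)).card

/-- the number of residues `r` modulo `q` at which all `f_i(r) + c_i` are coprime to `q` -/
def rho {k : ℕ} (f : Fin k → ℤ[X]) (c : Fin k → ℕ) (q : ℕ) : ℕ :=
  ((Finset.range q).filter (fun r : ℕ => Int.gcd (∏ i, value f c i r) q = 1)).card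

/-- the constant of Bateman and Horn of the system `f_i + c_i`, cut at `z` -/
noncomputable def const {k : ℕ} (f : Fin k → ℤ[X]) (c : Fin k → ℕ) (z : ℕ) : ℝ :=
  ∏ p ∈ (Finset.Icc 1 z).filter Nat.Prime, (1 - (omega f c p : ℝ) / p) / (1 - 1 / (p : ℝ)) ^ k

/-- the expected value of `theta`: `C y / ρ(q)` in the admissible classes, `0` in the others -/
noncomputable def expected {k : ℕ} (f : Fin k → ℤ[X]) (c : Fin k → ℕ) (z y q r : ℕ) : ℝ :=
  if Int.gcd (∏ i, value f c i r) q = 1 then const f c z * y / rho f c q else 0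

/-- the box of the constants -/
def box {k : ℕ} (A : Fin k → ℕ) : Finset (Fin k → ℕ) := Fintype.piFinset (fun i => Finset.Icc 1 (A i))

lemma value_eq {k : ℕ} (f : Fin k → ℤ[X]) (c : Fin k → ℕ) (i : Fin k) (n : ℕ) :
    value f c i n = Pool.Agent.H544.LD.va f c i n := by
  unfold value Pool.Agent.H544.LD.va
  ring

lemma prod_value {k : ℕ} (f : Fin k → ℤ[X]) (c : Fin k → ℕ) (n : ℕ) :
    ∏ i, value f c i n = (Pool.Agent.H544.LD.Hp f c).eval (n : ℤ) := by
  rw [Pool.Agent.H544.LD.Hp_va]
  exact prod_congr rfl fun i _ => value_eq f c i n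

lemma theta_eq {k : ℕ} (f : Fin k → ℤ[X]) (c : Fin k → ℕ) (y q r : ℕ) :
    theta f c y q r = Pool.Agent.H544.LD.th f c y q r := by
  classical
  unfold theta Pool.Agent.H544.LD.th Pool.Agent.H544.LD.cls
  rw [← filter_filter, sum_filter (fun n : ℕ => ∀ i, (value f c i n).toNat.Prime)]
  apply sum_congr rfl
  intro n _
  unfold Pool.Agent.H373R2.T7.lamP
  by_cases h : ∀ i, (value f c i n).toNat.Prime
  · rw [if_pos h]
    apply prod_congr rfl
    intro i _
    have h1 := h i
    rw [value_eq] at h1 ⊢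
    rw [if_pos h1]
    have h2 : 0 ≤ Pool.Agent.H544.LD.va f c i n := by
      have := h1.pos
      omega
    congr 1
    have h3 : (((Pool.Agent.H544.LD.va f c i n).toNat : ℤ) : ℝ) = ((Pool.Agent.H544.LD.va f c i n : ℤ) : ℝ) := by
      rw [Int.toNat_of_nonneg h2]
    rw [← h3]
    push_cast
    rfl
  · rw [if_neg h]
    push Not at h
    obtain ⟨i, hi⟩ := h
    symm
    apply prod_eq_zero (mem_univ i)
    rw [value_eq] at hi
    rw [if_neg hi]

lemma expected_eq {k : ℕ} (f : Fin k → ℤ[X]) (c : Fin k → ℕ) (z y q r : ℕ) :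
    expected f c z y q r = Pool.Agent.H544.LD.mu f c z q r * y := by
  have h1 : ∀ p, omega f c p = Pool.Agent.H544.LD.om (Pool.Agent.H544.LD.Hp f c) p := by
    intro p
    unfold omega Pool.Agent.H544.LD.om
    simp only [prod_value]
  have h2 : rho f c q = Pool.Agent.H544.LD.rho (Pool.Agent.H544.LD.Hp f c) q := by
    unfold rho Pool.Agent.H544.LD.rho
    simp only [prod_value]
  have h3 : const f c z = Pool.Agent.H544.LD.Cz f c z := by
    unfold const Pool.Agent.H544.LD.Cz Pool.Agent.H373R2.T7.pz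
    simp only [h1]
  unfold expected Pool.Agent.H544.LD.mu
  rw [prod_value, h2, h3]
  split_ifs
  · ring
  · rw [zero_mul]

open Classical in
/-- Equidistribution in residue classes of the `n ≤ x` at which all `f_i(n) + c_i` are prime, to moduli up to
`x * exp (- D (log log x) ^ 2)` and for arbitrary sets `R q` of residue classes, for all `c` in the box `c_i ≤ A_i` with at
most `(∏ A_i) / (log x) ^ U` exceptions. -/
theorem result (k : ℕ) (f : Fin k → ℤ[X]) (hd : ∀ i, 1 ≤ (f i).natDegree) (hl : ∀ i, 0 < (f i).leadingCoeff) (B U : ℕ) :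
    ∃ E₀ : ℕ, ∀ E : ℕ, ∃ D x₀ : ℕ, ∀ x : ℕ, x₀ ≤ x → ∀ A : Fin k → ℕ,
      (∀ i, A i ≤ B * x ^ (f i).natDegree ∧ x ^ (f i).natDegree ≤ B * A i) →
      ∀ z : ℕ, Real.log x ^ E₀ ≤ z → (z : ℝ) ≤ Real.log x ^ E →
      ∀ R : ℕ → Finset ℕ, (∀ q, R q ⊆ Finset.range q) →
        (((box A).filter (fun c => ¬ ∀ Q : ℕ, (Q : ℝ) ≤ x * Real.exp (-(D * Real.log (Real.log x) ^ 2)) →
            ∀ y : ℕ → ℕ → ℕ, (∀ q r, y q r ≤ x) →
            ∑ q ∈ Finset.Icc 1 Q, (∑ r ∈ R q, |theta f c (y q r) q r - expected f c z (y q r) q r|) / (R q).card ≤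
              x / Real.log x ^ U)).card : ℝ) ≤ (∏ i, (A i : ℝ)) / Real.log x ^ U := by
  obtain ⟨E₀, h0⟩ := Pool.Agent.H544.LD.fin_all f hd hl (max B 1) (le_max_right _ _) U
  refine ⟨E₀, fun E => ?_⟩
  obtain ⟨D, n1, h1⟩ := h0 E
  refine ⟨D, n1, fun x hx A hA z hz1 hz2 R hR => ?_⟩
  have h3 := h1 x hx A (fun i => ⟨(hA i).1.trans (Nat.mul_le_mul_right _ (le_max_left _ _)),
    (hA i).2.trans (Nat.mul_le_mul_right _ (le_max_left _ _))⟩) z hz1 hz2 R hR
  simp only [theta_eq, expected_eq]
  exact h3

end Pool.Agent.Results.MP_51e72e_nt.ElliottHalberstam
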