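import Pool.Agent.H524.MT.FinQ

/-!
# Hypothesis H over `F_q[X]`, `q` even, for linear and inseparable quadratic polynomials:
the theorem of Maynard and Tao
-/

set_option autoImplicit false

namespace Pool.Agent.Results.MP_51e72e_nt.MaynardTaoEvenCharacteristic

open Polynomial
open scoped Classical

/-- The number of the zeros of `F` modulo `P`. -/
noncomputable def zeros {K : Type} [Field K] (F : K[X][X]) (P : K[X]) : ℕ :=
  {u : K[X] | u.degree < P.degree ∧ P ∣ F.eval u}.ncard

/-- The product of the `1 - zeros F P / |P|` over the monic irreducible `P` of degree at most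
`d`. -/
noncomputable def density {K : Type} [Field K] [Fintype K] (F : K[X][X]) (d : ℕ) : ℝ :=
  ∏ᶠ P ∈ {P : K[X] | P.Monic ∧ Irreducible P ∧ P.natDegree ≤ d},
    (1 - (zeros F P : ℝ) / (Fintype.card K : ℝ) ^ P.natDegree)

/-- `f(T)` is irreducible, and linear or quadratic and inseparable (`f = α T ^ 2 + β`). -/
def Allowed {K : Type} [Field K] (f : K[X][X]) : Prop :=
  Irreducible f ∧ (f.natDegree = 1 ∨ f.natDegree = 2 ∧ derivative f = 0)

theorem density_eq {K : Type} [Field K] [Fintype K] (F : K[X][X]) (d : ℕ) :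
    density F d = Pool.Agent.H524.MT.Sh.dn F d := by
  have h : {P : K[X] | P.Monic ∧ Irreducible P ∧ P.natDegree ≤ d} =
      ((Pool.Agent.H694.Typ.PU K d : Finset K[X]) : Set K[X]) := by
    ext P
    rw [Finset.mem_coe, Pool.Agent.H694.Typ.mem_PU]
    exact Iff.rfl
  unfold density
  rw [h, finprod_mem_coe_finset]
  rfl

/-- **Maynard-Tao for linear and inseparable quadratic polynomials.**
(1) There is an `A` such that for all `m` and `k ≥ exp (A (m + 1))`, all `k` pairwise non-associated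
allowed `f_j` and all `G` such that `G ∏ f_j` has no fixed prime divisor there are `δ, c > 0` such
that for large `d` at least `c q ^ d density (G ∏ f_j) d` monic `a` of degree `d` are such that at
least `m` of the `f_j(a)` are irreducible and no prime of degree less than `δ d` divides
`G(a) ∏ f_j(a)`.
(2) For a positive proportion of the `m`-tuples of constants `c_i` of degree less than `n` there
are infinitely many `a` with all `a ^ 2 + c_i` irreducible.
(3) Bounded gaps: there is a `B` such that for every allowed `f`, every `m ≥ 1` and all large `n`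
there is a monic `a` of degree `n` with at least `m` irreducible `f(a + h)`, `deg h ≤ B m`. -/
theorem result (K : Type) [Field K] [Fintype K] [CharP K 2] :
    (∃ A : ℝ, ∀ m k : ℕ, Real.exp (A * (m + 1)) ≤ k → ∀ f : Fin k → K[X][X],
      (∀ j, Allowed (f j)) → (∀ i j, i ≠ j → ¬ Associated (f i) (f j)) → ∀ G : K[X][X],
      (∀ P : K[X], Irreducible P → ∃ a : K[X], ¬ P ∣ (G * ∏ j, f j).eval a) →
      ∃ (δ c : ℝ) (d₀ : ℕ), 0 < δ ∧ 0 < c ∧ ∀ d : ℕ, d₀ ≤ d →
        c * (Fintype.card K : ℝ) ^ d * density (G * ∏ j, f j) d ≤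
          ({a : K[X] | a.Monic ∧ a.natDegree = d ∧ m ≤ {j | Irreducible ((f j).eval a)}.ncard ∧
            ∀ P : K[X], Irreducible P → P ∣ (G * ∏ j, f j).eval a →
              δ * d ≤ P.natDegree}.ncard : ℝ)) ∧
    (∀ m : ℕ, ∃ δ : ℝ, 0 < δ ∧ ∃ n₀ : ℕ, ∀ n : ℕ, n₀ ≤ n →
      δ * ((Fintype.card K : ℝ) ^ n) ^ m ≤
        ({c : Fin m → K[X] | (∀ i, (c i).degree < (n : WithBot ℕ)) ∧ Function.Injective c ∧
          {a : K[X] | ∀ i, Irreducible (a ^ 2 + c i)}.Infinite}.ncard : ℝ)) ∧
    (∃ B : ℕ, ∀ f : K[X][X], Allowed f → ∀ m : ℕ, 1 ≤ m → ∃ n₀ : ℕ, ∀ n : ℕ, n₀ ≤ n →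
      ∃ a : K[X], a.Monic ∧ a.natDegree = n ∧
        m ≤ {h : K[X] | h.natDegree ≤ B * m ∧ Irreducible (f.eval (a + h))}.ncard) := by
  refine ⟨?_, Pool.Agent.H524.MT.s_prop K,
    Pool.Agent.H524.MT.gapfq Pool.Agent.H524.MT.s_maysq Pool.Agent.H524.MT.mert K⟩
  obtain ⟨A, H⟩ := Pool.Agent.H524.MT.mayfq Pool.Agent.H524.MT.s_maysq K
  refine ⟨A, fun m k hk f hf hne G hadm => ?_⟩
  obtain ⟨δ, c, d₀, hδ, hc, H1⟩ := H m k hk f hf hne G hadm
  refine ⟨δ, c, d₀, hδ, hc, fun d hd => ?_⟩
  rw [density_eq]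
  exact H1 d hd

end Pool.Agent.Results.MP_51e72e_nt.MaynardTaoEvenCharacteristic
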