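import Mathlib
import Pool.Agent.H544.VB.C7

/-!
# Systems of polynomials: the formula of Bateman and Horn for almost all shifts in short boxes

Let `f₁, …, f_k` be integer polynomials of degrees `dᵢ ≥ 2` with positive leading coefficients (they may be equal). Let the vector
of shifts `a = (a₁, …, a_k)` range over a box `∏ (a₀ᵢ, a₀ᵢ + Aᵢ]`, where the sides are as short as `x ^ (dᵢ - 1) (log x) ^ C`
(for `dᵢ = 2` they have to be at least `x ^ (4/3) (log x) ^ C`, but not if `k = 1` and there are no weights), while the values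
`fᵢ(n)`, `n ≤ x`, have the order of `x ^ dᵢ`. Then for all but at most `∏ Aᵢ / (log x) ^ U` of the vectors `a`:

* for all `y ≤ x` the number of the `n ≤ y` at which all the `fᵢ(n) + aᵢ` are primes, counted with the weight
  `∏ log (fᵢ(n) + aᵢ)`, is `const * y` up to `x / (log x) ^ U`, with the constant of Bateman and Horn of the system (cut at a
  power `z` of `log x`);
* the same holds with arbitrary bounded weights `w n`, which do not depend on `a` (for example the indicator function of an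
  arbitrary set of integers `n`): the expected value is the sum of the weights over the `n ≤ y` at which the `fᵢ(n) + aᵢ` have no
  prime factor `≤ z`, divided by `∏_{p ≤ z} (1 - 1/p) ^ k`.
-/

set_option autoImplicit false

namespace Pool.Agent.Results.MP_51e72e_nt.SystemsInShortBoxes

open Finset Polynomial

variable {k : ℕ}

/-- the sum of `w n ∏ log (fᵢ(n) + aᵢ)` over the `n ≤ y` at which all the `fᵢ(n) + aᵢ` are primes -/
noncomputable def theta (f : Fin k → ℤ[X]) (a : Fin k → ℕ) (w : ℕ → ℝ) (y : ℕ) : ℝ :=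
  ∑ n ∈ (Finset.Icc 1 y).filter (fun n : ℕ => ∀ i, ((f i).eval (n : ℤ) + (a i : ℤ)).toNat.Prime),
    w n * ∏ i, Real.log (((f i).eval (n : ℤ) + (a i : ℤ) : ℤ) : ℝ)

/-- the number of residues `n` modulo `p` at which `p` divides the product of the `fᵢ(n) + aᵢ` -/
def omega (f : Fin k → ℤ[X]) (a : Fin k → ℕ) (p : ℕ) : ℕ :=
  ((Finset.range p).filter (fun n : ℕ => (p : ℤ) ∣ ∏ i, ((f i).eval (n : ℤ) + (a i : ℤ)))).card

/-- the constant of Bateman and Horn of the system of the polynomials `fᵢ + aᵢ`, cut at `z` -/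
noncomputable def const (f : Fin k → ℤ[X]) (a : Fin k → ℕ) (z : ℕ) : ℝ :=
  ∏ p ∈ (Finset.Icc 1 z).filter Nat.Prime, (1 - (omega f a p : ℝ) / p) / (1 - 1 / (p : ℝ)) ^ k

/-- the sum of `w n` over the `n ≤ y` at which the `fᵢ(n) + aᵢ` are positive and have no prime factor `≤ z`, divided by
`∏_{p ≤ z} (1 - 1/p) ^ k` -/
noncomputable def model (f : Fin k → ℤ[X]) (a : Fin k → ℕ) (z : ℕ) (w : ℕ → ℝ) (y : ℕ) : ℝ :=
  (∑ n ∈ (Finset.Icc 1 y).filter (fun n : ℕ => ∀ i, 1 ≤ (f i).eval (n : ℤ) + (a i : ℤ) ∧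
      ∀ p ∈ (Finset.Icc 1 z).filter Nat.Prime, ¬ (p : ℤ) ∣ (f i).eval (n : ℤ) + (a i : ℤ)), w n) /
    ∏ p ∈ (Finset.Icc 1 z).filter Nat.Prime, (1 - 1 / (p : ℝ)) ^ k

lemma theta_eq (f : Fin k → ℤ[X]) (a : Fin k → ℕ) (w : ℕ → ℝ) (y : ℕ) :
    theta f a w y = ∑ n ∈ Icc 1 y, w n * ∏ i, Pool.Agent.H373R2.T7.lamP (Pool.Agent.H544.LD.va f a i n) := by
  unfold theta
  rw [sum_filter]
  apply sum_congr rfl
  intro n _
  have h1 : ∀ i, Pool.Agent.H373R2.T7.lamP (Pool.Agent.H544.LD.va f a i n) =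
      if ((f i).eval (n : ℤ) + (a i : ℤ)).toNat.Prime then Real.log (((f i).eval (n : ℤ) + (a i : ℤ) : ℤ) : ℝ) else 0 := by
    intro i
    unfold Pool.Agent.H373R2.T7.lamP Pool.Agent.H544.LD.va
    rw [add_comm (a i : ℤ)]
    split_ifs with h
    · have h2 : 0 ≤ (f i).eval (n : ℤ) + (a i : ℤ) := by
        have := h.pos
        omega
      congr 1
      have h3 : ((((f i).eval (n : ℤ) + (a i : ℤ)).toNat : ℤ) : ℝ) = (((f i).eval (n : ℤ) + (a i : ℤ) : ℤ) : ℝ) := by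
        rw [Int.toNat_of_nonneg h2]
      rw [← h3]
      push_cast
      rfl
    · rfl
  split_ifs with h
  · congr 1
    apply prod_congr rfl
    intro i _
    rw [h1, if_pos (h i)]
  · push Not at h
    obtain ⟨i, hi⟩ := h
    rw [prod_eq_zero (mem_univ i), mul_zero]
    rw [h1, if_neg hi]

lemma const_eq (f : Fin k → ℤ[X]) (a : Fin k → ℕ) (z : ℕ) : const f a z = Pool.Agent.H544.LD.Cz f a z := by
  unfold const Pool.Agent.H544.LD.Cz Pool.Agent.H373R2.T7.pz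
  apply prod_congr rfl
  intro p _
  congr 4
  unfold omega Pool.Agent.H544.LD.om
  congr 1
  apply filter_congr
  intro n _
  rw [Pool.Agent.H544.LD.Hp_eval]
  simp only [add_comm]

lemma model_eq (f : Fin k → ℤ[X]) (a : Fin k → ℕ) (z : ℕ) (w : ℕ → ℝ) (y : ℕ) :
    model f a z w y = ∑ n ∈ Icc 1 y, w n * ∏ i, Pool.Agent.H373R2.T7.lamzI z (Pool.Agent.H544.LD.va f a i n) := by
  unfold model
  rw [sum_filter, sum_div]
  apply sum_congr rfl
  intro n _
  have h1 : ∀ i, Pool.Agent.H373R2.T7.lamzI z (Pool.Agent.H544.LD.va f a i n) =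
      if 1 ≤ (f i).eval (n : ℤ) + (a i : ℤ) ∧ ∀ p ∈ (Finset.Icc 1 z).filter Nat.Prime, ¬ (p : ℤ) ∣ (f i).eval (n : ℤ) + (a i : ℤ)
      then (Pool.Agent.H373R2.T7.Vz z)⁻¹ else 0 := by
    intro i
    unfold Pool.Agent.H373R2.T7.lamzI Pool.Agent.H544.LD.va Pool.Agent.H373R2.T7.lamz
    rw [add_comm (a i : ℤ)]
    by_cases h : 1 ≤ (f i).eval (n : ℤ) + (a i : ℤ)
    · rw [if_pos h]
      have h2 : (∀ p ∈ Pool.Agent.H373R2.T7.pz z, ¬ p ∣ ((f i).eval (n : ℤ) + (a i : ℤ)).toNat) ↔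
          (1 ≤ (f i).eval (n : ℤ) + (a i : ℤ) ∧ ∀ p ∈ (Finset.Icc 1 z).filter Nat.Prime, ¬ (p : ℤ) ∣ (f i).eval (n : ℤ) + (a i : ℤ)) := by
        rw [and_iff_right h]
        unfold Pool.Agent.H373R2.T7.pz
        apply forall₂_congr
        intro p _
        rw [← Int.natCast_dvd_natCast, Int.toNat_of_nonneg (by omega)]
      by_cases h3 : ∀ p ∈ Pool.Agent.H373R2.T7.pz z, ¬ p ∣ ((f i).eval (n : ℤ) + (a i : ℤ)).toNat
      · rw [if_pos h3, if_pos (h2.1 h3)]
      · rw [if_neg h3, if_neg (fun h4 => h3 (h2.2 h4))]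
    · rw [if_neg h, if_neg (fun h4 => h h4.1)]
  have hV : ∏ p ∈ (Finset.Icc 1 z).filter Nat.Prime, (1 - 1 / (p : ℝ)) ^ k = Pool.Agent.H373R2.T7.Vz z ^ k := by
    unfold Pool.Agent.H373R2.T7.Vz Pool.Agent.H373R2.T7.pz
    rw [prod_pow]
  rw [hV]
  split_ifs with h
  · have e1 : ∏ i, Pool.Agent.H373R2.T7.lamzI z (Pool.Agent.H544.LD.va f a i n) = (Pool.Agent.H373R2.T7.Vz z)⁻¹ ^ k := by
      rw [prod_congr rfl (fun i _ => (h1 i).trans (if_pos (h i))), prod_const, card_univ, Fintype.card_fin]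
    rw [e1, inv_pow]
    ring
  · push Not at h
    obtain ⟨i, hi⟩ := h
    have e1 : ∏ i, Pool.Agent.H373R2.T7.lamzI z (Pool.Agent.H544.LD.va f a i n) = 0 := by
      apply prod_eq_zero (mem_univ i)
      rw [h1 i, if_neg]
      intro h5
      obtain ⟨p, hp, hpd⟩ := hi h5.1
      exact h5.2 p hp hpd
    rw [e1]
    ring

open Classical in
/-- The formula of Bateman and Horn for systems of polynomials `fᵢ + aᵢ` of degrees `dᵢ ≥ 2`, with a saving of `(log x) ^ U`, for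
all `y ≤ x` and with arbitrary bounded weights, for almost all vectors `a` in every box with sides `Aᵢ ≥ x ^ (dᵢ - 1) (log x) ^ C`
(`Aᵢ ≥ x ^ (4/3) (log x) ^ (C/3)` if `dᵢ = 2`, except for a single polynomial without weights). -/
theorem result (f : Fin k → ℤ[X]) (hd : ∀ i, 2 ≤ (f i).natDegree) (hl : ∀ i, 0 < (f i).leadingCoeff) (U G : ℕ) :
    ∃ C E₀ : ℕ, ∀ E : ℕ, ∃ x₀ : ℕ, ∀ x : ℕ, x₀ ≤ x → ∀ a₀ A : Fin k → ℕ,
      (∀ i, (x : ℝ) ^ ((f i).natDegree - 1) * Real.log x ^ C ≤ A i) →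
      (∀ i, (a₀ i : ℝ) + A i ≤ (x : ℝ) ^ (f i).natDegree * Real.log x ^ G) →
      ∀ w : ℕ → ℝ, (∀ n, |w n| ≤ 1) →
      (∀ i, (f i).natDegree = 2 → (x : ℝ) ^ 4 * Real.log x ^ C ≤ (A i : ℝ) ^ 3 ∨ (k = 1 ∧ ∀ n, w n = 1)) →
      ∀ z : ℕ, Real.log x ^ E₀ ≤ z → (z : ℝ) ≤ Real.log x ^ E →
      (((Fintype.piFinset fun i => Finset.Ioc (a₀ i) (a₀ i + A i)).filter (fun a : Fin k → ℕ => ¬ ∀ y : ℕ, y ≤ x →
          |theta f a (fun _ => 1) y - const f a z * y| ≤ x / Real.log x ^ U ∧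
          |theta f a w y - model f a z w y| ≤ x / Real.log x ^ U)).card : ℝ) ≤
        (∏ i, (A i : ℝ)) / Real.log x ^ U := by
  obtain ⟨C, E₀, h0⟩ := Pool.Agent.H544.VB.kfin f hd hl U G
  refine ⟨C, E₀, fun E => ?_⟩
  obtain ⟨x₀, h1⟩ := h0 E
  refine ⟨x₀, fun x hx a₀ A hA1 hA2 w hw hc z hz1 hz2 => ?_⟩
  obtain ⟨Bad, _, b2, b3⟩ := h1 x hx A a₀ hA1 (fun i => by have := hA2 i; linarith) z hz1 hz2 w hw hc
  refine le_trans ?_ b2
  have hsub : (Fintype.piFinset fun i => Finset.Ioc (a₀ i) (a₀ i + A i)).filter (fun a : Fin k → ℕ => ¬ ∀ y : ℕ, y ≤ x →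
      |theta f a (fun _ => 1) y - const f a z * y| ≤ x / Real.log x ^ U ∧
      |theta f a w y - model f a z w y| ≤ x / Real.log x ^ U) ⊆ Bad.image (fun a => a + a₀) := by
    intro a ha
    rw [mem_filter, Fintype.mem_piFinset] at ha
    obtain ⟨ha1, ha3⟩ := ha
    rw [mem_image]
    have e1 : (a - a₀) + a₀ = a := by
      funext i
      have := (mem_Ioc.1 (ha1 i)).1
      rw [Pi.add_apply, Pi.sub_apply]
      omega
    refine ⟨a - a₀, ?_, e1⟩
    by_contra hab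
    apply ha3
    intro y hy
    have h2 := b3 (a - a₀) (by
      unfold Pool.Agent.H544.LD.Bx
      rw [Fintype.mem_piFinset]
      intro i
      have := mem_Ioc.1 (ha1 i)
      rw [mem_Icc, Pi.sub_apply]
      omega) hab y hy
    rw [e1] at h2
    rw [theta_eq, theta_eq, const_eq, model_eq]
    simp only [one_mul]
    exact h2
  have h3 : ((Fintype.piFinset fun i => Finset.Ioc (a₀ i) (a₀ i + A i)).filter (fun a : Fin k → ℕ => ¬ ∀ y : ℕ, y ≤ x →
      |theta f a (fun _ => 1) y - const f a z * y| ≤ x / Real.log x ^ U ∧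
      |theta f a w y - model f a z w y| ≤ x / Real.log x ^ U)).card ≤ Bad.card :=
    (card_le_card hsub).trans card_image_le
  exact_mod_cast h3

end Pool.Agent.Results.MP_51e72e_nt.SystemsInShortBoxes
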